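import Pool.Agent.H882.MvRes

/-!
# MP_defd1c_ag: no atypical intersections for one hundred percent of the Möbius translates, with integral
centres, of an arbitrary subvariety of the mixed Shimura variety `Y(1)^n × G_m^k`

`Y(1)^n` is identified with `ℂ^n` by the elliptic modular function `jj = j = E₄³ / Δ`. The special
subvarieties of the mixed Shimura variety `Y(1)^n × G_m^k` are the products `Z × C` of a special
subvariety `Z` of `Y(1)^n` and a torsion coset `C` of the torus.

**The translates.** Let `F ⊂ ℂ` be a countable field and `V ⊆ ℂ^(n+k)` an arbitrary subvariety over `F`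
(or any set) of dimension at most `m` (`DimLE`); nothing else is assumed about `V`. Let
`A ∈ ℤ^(M × k)` be a generic matrix (see below; for `k = 0` there is no condition). For `s, δ ∈ ℤ^(n+k)`,
`t ∈ ℕ^M`, `t_l > 0`, and algebraic integers `λ_i` let `X = translate A s δ t λ V` be the closure of the image
of `V` under the Möbius transformations

  `y_i ↦ s_i + (t_1 ⋯ t_M) λ_i / (y_i - δ_i)` of the first `n` coordinates, and
  `y_(n+j) ↦ t^(A_j) (s_(n+j) + (t_1 ⋯ t_M) λ_(n+j) / (y_(n+j) - δ_(n+j)))` of the last `k` coordinates,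

with `t^(A_j) = t_1^(A_(1,j)) ⋯ t_M^(A_(M,j))`, in `Y(1)^n × G_m^k`. (The closure is taken before the affine
maps are applied, this is the same if `λ_i ≠ 0`.) If `V` is irreducible of dimension `m` and in none of the
hyperplanes `y_i = δ_i`, and `λ_i ≠ 0`, then `X` is irreducible of dimension `m`, or empty. For `k = 0`,
`M = 1` these are the translates of an arbitrary subvariety `V` of `Y(1)^n` by the Möbius transformations
`y_i ↦ s_i + t λ_i / (y_i - δ_i)`.

**Theorem.** The set of the `(s, δ, t) ∈ ℤ^(n+k) × ℤ^(n+k) × ℕ^M` for which `X` has, for some algebraic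
integers `λ_i`, an atypical intersection with a product `Z × C` is of density zero. Here `Z` is a special
subvariety of `Y(1)^n`, and `C` is a coset of an algebraic subgroup of the torus by a point whose
coordinates are units away from a given number `D`, for example a torsion coset. So for one hundred
percent of the translates of `V`, ordered by the size of the parameters, there are no atypical
intersections at all.

`NoAtypical F D m X` means that for each point `x` of `X ∩ (Z × C)` the sets of coordinates of `x` which are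
algebraically independent over `F` have at most `m + dim (Z × C) - (n + k)` elements, where
`dim C = k - rank L` for the group `L` of the characters which are constant on `C`. A component `a` of
an intersection of `X` and `Z × C` has a point which is generic over the algebraic closure of the
countable field `F`, and so `dim a ≤ dim X + dim (Z × C) - (n + k)` if `V` and `X` have dimension `m`,
i.e. `a` is not atypical. So the atypical set of `X` in `T = Y(1)^n × G_m^k` is empty, and Q1 is true for
the subvariety `X` of `T`.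

**Generic matrices.** `A` is generic (`Generic`) if for each group `L` of characters of the torus there
is a row `a` of `A` such that for all sets `B` of fewer than `rank L` coordinates there is a character
`χ ∈ L` which is zero on `B`, with `χ · a ≠ 0`. For example this is true if `A` has more than
`(k - 1) 2^k` rows, any `k` of which are linearly independent (`MP_a325a5_ag.ModularTimesTorus`, (1); lemma
`gen_of_det`), for example for `A_(l,j) = l^j`, and for `A = (1)` if `k = 1`.

**Relation to earlier results.** The library has results on the translates of arbitrary subvarieties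
of `Y(1)^n × G_m^k` by Möbius maps (`MixedTranslates` for this problem, `MultiparameterTranslates`,
`OneNullSet` and `RandomOrbits` for MP_a325a5_ag): there the coordinates are divided by integers `c_i` with
independent exponents at large primes, so that the modular coordinates of the translate
tend to the cusps at these primes. Here the translates are concentrated near an integral point `s` which
is not near to the cusps, the modular coordinates have good ordinary reduction, and the parameters
are all integral vectors up to a set of density zero. In our results `MP_d83ecd_ag.IntegralCentres` and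
`MP_a325a5_ag.ModularTimesTorus` the variety is `s + t λ Y` with `Y` in general position at infinity, and
the set of density zero does not depend on `Y`; here `V` is arbitrary, and the set depends on `V`.

**Idea of the proof.** For `|J| = m + 1` let `P_J (y_j, j ∈ J) = 0` be an equation for `V`. For all large primes
`p` there is an embedding `Φ_p` of `ℂ` into `ℂ_p` for which the coefficients of the `P_J` are units; by the
Schwartz-Zippel lemma `P_J (δ)` is a unit for all `δ mod p` up to `O(p^(n+k-1))` classes. Then at most `m` of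
the `y_i - δ_i` are not units or poles, more precisely at most `m` of the `w_i = 1 / (y_i - δ_i)` are not
integral, for all points `y` of `V` and of its closure and all embeddings of `ℂ` which agree with `Φ_p`
on `F`. So the coordinates of `X` are near to `s_i` with at most `m` exceptions, if `p` divides `t`. Now
Kronecker's congruence and the canonical isogeny (module `Core`, from `MP_d83ecd_ag.IntegralCentres`) show
that the modular coordinates which are near to the `s_i` are not isogenous and not singular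
moduli (with exceptions which are different for different `p`), and the other coordinates are treated
as in `MP_a325a5_ag.ModularTimesTorus`.
-/

set_option autoImplicit false

namespace Pool.Agent.H882.Old.MoebiusTranslates

open UpperHalfPlane H294ZP

/-- A special subvariety of dimension `r` of `Y(1)^n`: a map `cls` from the coordinates onto `r`
classes (`none` for the constant coordinates), an integral matrix of positive determinant for each
coordinate, and a CM point for each coordinate. -/
structure SpecialVariety (n r : ℕ) where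
  cls : Fin n → Option (Fin r)
  surj : ∀ l : Fin r, ∃ i, cls i = some l
  mat : Fin n → Matrix (Fin 2) (Fin 2) ℤ
  det_pos : ∀ i, 0 < (mat i).det
  cm : Fin n → ℍ
  isCM : ∀ i, IsCM (cm i)

/-- The points of a special subvariety: the constant coordinates are the singular moduli
`j (cm i)`, the other coordinates are `j (g_i z_l)`, where `l` is the class of `i`, `g_i = mat i` and
`z_1, …, z_r` are free parameters in the upper half plane. -/
def SpecialVariety.locus {n r : ℕ} (Z : SpecialVariety n r) : Set (Fin n → ℂ) :=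
  {x | ∃ z : Fin r → ℍ, ∀ i, (Z.cls i = none → x i = jj (Z.cm i)) ∧
    ∀ l, Z.cls i = some l → ∃ w : ℍ,
      (w : ℂ) * (Z.mat i 1 0 * z l + Z.mat i 1 1) = Z.mat i 0 0 * z l + Z.mat i 0 1 ∧ x i = jj w}

/-- A coset of an algebraic subgroup of `G_m^k`: `chars` is a group of characters which are constant on
the coset, and `pt` is a point of the coset whose coordinates are units away from `D`. For points of
finite order this is true for all `D`. -/
structure Coset (D k : ℕ) where
  chars : AddSubgroup (Fin k → ℤ)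
  pt : Fin k → ℂ
  ne_zero : ∀ j, pt j ≠ 0
  unit : ∀ j, IsIntegral ℤ ((D : ℂ) * pt j) ∧ IsIntegral ℤ ((D : ℂ) * (pt j)⁻¹)

/-- The points of a coset. Its dimension is `k - rank chars`. -/
def Coset.locus {D k : ℕ} (C : Coset D k) : Set (Fin k → ℂ) :=
  {z | (∀ j, z j ≠ 0) ∧ ∀ χ ∈ C.chars, ∏ j, z j ^ χ j = ∏ j, C.pt j ^ χ j}

/-- For each special subvariety `Z` of dimension `r`, each coset `C` (of dimension
`k - rank C.chars`), and each point of `X ∩ (Z × C)`: families of coordinates which are algebraically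
independent over `F` have at most `m + dim (Z × C) - (n + k)` elements. -/
def NoAtypical {n k : ℕ} (F : Subfield ℂ) (D m : ℕ) (X : Set ((Fin n → ℂ) × (Fin k → ℂ))) : Prop :=
  ∀ (r : ℕ) (Z : SpecialVariety n r) (C : Coset D k), ∀ x ∈ X, x.1 ∈ Z.locus → x.2 ∈ C.locus →
    ∀ (W : Finset (Fin n)) (V : Finset (Fin k)),
      AlgebraicIndependent F (Sum.elim (fun i : W => x.1 i) (fun j : V => x.2 j)) →
      n + W.card + V.card + Module.finrank ℤ C.chars ≤ m + r

/-- The dimension of `V` is at most `m`: any `m + 1` of the coordinates satisfy a nontrivial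
algebraic equation over `F` on `V`. -/
def DimLE {d : ℕ} (F : Subfield ℂ) (m : ℕ) (V : Set (Fin d → ℂ)) : Prop :=
  ∀ J : Finset (Fin d), J.card = m + 1 → ∃ P : MvPolynomial (Fin d) ℂ, P ≠ 0 ∧
    (∀ u, P.coeff u ∈ F) ∧ (∀ u ∈ P.support, u.support ⊆ J) ∧
    ∀ y ∈ V, MvPolynomial.eval y P = 0

/-- The Zariski closure. -/
def zariskiClosure {d : ℕ} (S : Set (Fin d → ℂ)) : Set (Fin d → ℂ) :=
  {w | ∀ G : MvPolynomial (Fin d) ℂ, (∀ u ∈ S, MvPolynomial.eval u G = 0) →
    MvPolynomial.eval w G = 0}

/-- The closure of the set of the points with the coordinates `1 / (y_i - δ_i)`, for the `y ∈ V` with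
`y_i ≠ δ_i` for all `i`. -/
def inverted {d : ℕ} (δ : Fin d → ℤ) (V : Set (Fin d → ℂ)) : Set (Fin d → ℂ) :=
  zariskiClosure {u | ∃ y ∈ V, ∀ i, u i * (y i - δ i) = 1}

/-- The translate: the points with the coordinates `s_i + (t_1 ⋯ t_M) λ_i w_i`, `i ≤ n`, and
`t^(A_j) (s_(n+j) + (t_1 ⋯ t_M) λ_(n+j) w_(n+j))`, `j ≤ k`, for `w ∈ inverted δ V`. -/
def translate {n k M : ℕ} (A : Fin M → Fin k → ℤ) (s δ : Fin (n + k) → ℤ) (t : Fin M → ℕ)
    (lam : Fin (n + k) → ℂ) (V : Set (Fin (n + k) → ℂ)) : Set ((Fin n → ℂ) × (Fin k → ℂ)) :=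
  {x | ∃ w ∈ inverted δ V, (∀ i : Fin n, x.1 i = (s (Fin.castAdd k i) : ℂ) +
      (∏ l, (t l : ℂ)) * lam (Fin.castAdd k i) * w (Fin.castAdd k i)) ∧
    ∀ j : Fin k, x.2 j = (∏ l, (t l : ℂ) ^ A l j) * ((s (Fin.natAdd n j) : ℂ) +
      (∏ l, (t l : ℂ)) * lam (Fin.natAdd n j) * w (Fin.natAdd n j))}

/-- For each group `L` of characters there is a row of `A` such that for all sets `B` of fewer than
`rank L` coordinates a character in `L` is zero on `B` and not orthogonal to this row. -/
def Generic {M k : ℕ} (A : Fin M → Fin k → ℤ) : Prop :=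
  ∀ L : AddSubgroup (Fin k → ℤ), ∃ l, ∀ B : Finset (Fin k), B.card < Module.finrank ℤ L →
    ∃ χ ∈ L, (∀ j ∈ B, χ j = 0) ∧ ∑ j, χ j * A l j ≠ 0

/-- `N` has density zero in `ℤ^d × ℤ^d × ℕ^M`. -/
def DensityZero {d M : ℕ} (N : Set ((Fin d → ℤ) × (Fin d → ℤ) × (Fin M → ℕ))) : Prop :=
  ∀ ε : ℝ, 0 < ε → ∃ H₀ : ℕ, ∀ H : ℕ, H₀ ≤ H →
    ({q : (Fin d → ℤ) × (Fin d → ℤ) × (Fin M → ℕ) | q ∈ N ∧ (∀ i, |q.1 i| ≤ (H : ℤ)) ∧
      (∀ i, |q.2.1 i| ≤ (H : ℤ)) ∧ ∀ l, q.2.2 l ≤ H}.ncard : ℝ) ≤ ε * (H : ℝ) ^ (d + d + M)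

open Pool.Agent.H882 Pool.Agent.Y226

/-- The theorem. -/
theorem result (n k M : ℕ) (hM : 0 < M) (A : Fin M → Fin k → ℤ) (hA : Generic A)
    (F : Subfield ℂ) [Countable F] (m : ℕ) (V : Set (Fin (n + k) → ℂ)) (hV : DimLE F m V)
    (D : ℕ) (hD : 0 < D) :
    DensityZero {q : (Fin (n + k) → ℤ) × (Fin (n + k) → ℤ) × (Fin M → ℕ) | (∀ l, 0 < q.2.2 l) ∧
      ¬ ∀ lam : Fin (n + k) → ℂ, (∀ i, IsIntegral ℤ (lam i)) →
        NoAtypical F D m (translate A q.1 q.2.1 q.2.2 lam V)} := by
  classical
  obtain ⟨E, Γ, hE, hΓ, hΓ2, hcore⟩ := core_all n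
  let P : Finset (Fin (n + k)) → MvPolynomial (Fin (n + k)) ℂ := fun J =>
    if hJ : J.card = m + 1 then (hV J hJ).choose else 0
  have hPJ : ∀ J, ∀ hJ : J.card = m + 1, P J = (hV J hJ).choose := fun J hJ => dif_pos hJ
  obtain ⟨B, K, hloc⟩ := mv_prime (n := n) (F := F) (m := m) (V := V) Cardinal.mk_le_aleph0 P
    (fun J hJ => by
      rw [hPJ J hJ]
      exact ⟨(hV J hJ).choose_spec.2.2.2, (hV J hJ).choose_spec.2.2.1⟩)
    (fun J hJ => by
      rw [hPJ J hJ]
      exact (hV J hJ).choose_spec.1)
    (fun J u => by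
      by_cases hJ : J.card = m + 1
      · rw [hPJ J hJ]
        exact (hV J hJ).choose_spec.2.1 u
      · have h0 : P J = 0 := dif_neg hJ
        rw [h0]
        exact F.zero_mem)
  have hex : ∀ p : ℕ, ∃ Bd : Set (Fin (n + k) → ZMod p), p.Prime → B + 3 < p →
      Bd.ncard ≤ K * p ^ (n + k - 1) ∧ (n + k = 0 → Bd = ∅) ∧
        Loc n (n + k) m p (E p) (Γ p) F V Bd := by
    intro p
    by_cases h : p.Prime ∧ B + 3 < p
    · obtain ⟨Bd, hBd⟩ := hloc p h.1 (by omega) (E p) (Γ p) (hcore p h.1 (by omega))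
      exact ⟨Bd, fun _ _ => hBd⟩
    · exact ⟨∅, fun h1 h2 => absurd ⟨h1, h2⟩ h⟩
  choose Bd hBd using hex
  have hsmall := small_EP (B₀ := B + 3) (K := K) (fun p => EM n k p (E p)) Bd
    (fun η hη => small_EM E (small_E E hE) η hη)
    (fun p hp hlt => ⟨(hBd p hp hlt).1, (hBd p hp hlt).2.1⟩)
  -- the main statement
  have hmain : ∀ (s δ : Fin (n + k) → ℤ) (t : Fin M → ℕ), (∀ l, 0 < t l) →
      PM (fun p => EP (n + k) p (EM n k p (E p)) (Bd p)) Γ (B + 3 + D) (Fin.append s δ) t →
      ∀ lam : Fin (n + k) → ℂ, (∀ i, IsIntegral ℤ (lam i)) →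
        NoAtypical F D m (translate A s δ t lam V) := by
    intro s δ t ht hPM lam hlam r Z C x hx hxZ hxC W V' hind
    obtain ⟨w, hw, hx1, hx2⟩ := hx
    have h := gen_ineq (n := n) (m := m) (r := r) (w := W.card) hA C.chars V' fun l => ?_
    · exact h
    obtain ⟨f, hf, hf1, hf2⟩ := hPM l
    -- a prime for which no coordinate is exceptional
    obtain ⟨i₀, hi₀⟩ : ∃ i₀, ∀ a : Fin n,
        x.1 a ∉ Γ (f i₀) (s (Fin.castAdd k a) : ZMod (f i₀)) := by
      by_contra hno
      push Not at hno
      choose g hg using hno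
      obtain ⟨i, i', hii, hgi⟩ := Fintype.exists_ne_map_eq_of_card_lt
        (fun i => Fin.castAdd (n + k) (Fin.castAdd k (g i))) (by simp)
      have hgi' : g i = g i' := Fin.castAdd_injective n k (Fin.castAdd_injective _ _ hgi)
      have h1 := hg i
      have h2 := hg i'
      rw [← hgi'] at h2
      have h3 := hf2 i i' hii (Fin.castAdd (n + k) (Fin.castAdd k (g i))) (x.1 (g i))
      rw [Fin.append_left] at h3
      exact h3 h1 h2
    obtain ⟨p1, p2, p3, p4, p5, p6⟩ := hf1 i₀
    have p6' : ¬ ((fun i => ((Fin.append s δ (Fin.castAdd (n + k) i) : ℤ) : ZMod (f i₀))) ∈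
        EM n k (f i₀) (E (f i₀)) ∨
        (fun i => ((Fin.append s δ (Fin.natAdd (n + k) i) : ℤ) : ZMod (f i₀))) ∈ Bd (f i₀)) := p6
    simp only [Fin.append_left, Fin.append_right] at p6'
    rw [not_or] at p6'
    obtain ⟨p7, p8⟩ := p6'
    have hpE : (fun i : Fin n => (s (Fin.castAdd k i) : ZMod (f i₀))) ∉ E (f i₀) := fun h =>
      p7 (Or.inl h)
    have hpk : ∀ j : Fin k, ¬ ((f i₀ : ℕ) : ℤ) ∣ s (Fin.natAdd n j) := fun j hd =>
      p7 (Or.inr ⟨j, (ZMod.intCast_zmod_eq_zero_iff_dvd _ _).2 hd⟩)
    obtain ⟨c, hc⟩ : f i₀ ∣ ∏ l, t l := p4.trans (Finset.dvd_prod_of_mem t (Finset.mem_univ l))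
    have hcC : (∏ l, (t l : ℂ)) = ((f i₀ : ℕ) : ℂ) * (c : ℂ) := by
      rw [← Nat.cast_prod, hc, Nat.cast_mul]
    have hDp : ¬ f i₀ ∣ D := fun h => by
      have := Nat.le_of_dvd hD h
      omega
    obtain ⟨C', i1, i2, i3, i4, i5, φ₀, hpC, hCC, hL⟩ := (hBd (f i₀) p1 (by omega)).2.2
    refine mv_local p1 φ₀ hpC hCC (F := F) (m := m) w (fun u hu a => hL δ p8 w hw u hu a) s hpE hpk
      (fun i => (c : ℂ) * lam i) (fun i => (isIntegral_natCast (a := c)).mul (hlam i)) t A l
      (ht l).ne' p4 p5 x.1 x.2 (fun i => ?_) (fun j => ?_)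
      ⟨Z.cls, Z.surj, Z.mat, Z.det_pos, Z.cm, Z.isCM⟩ hxZ hi₀ C.chars C.pt C.ne_zero
      (fun j => ⟨⟨D, hDp, (C.unit j).1⟩, ⟨D, hDp, (C.unit j).2⟩⟩) hxC.2 W V' hind
    · rw [hx1 i, hcC]
      ring
    · rw [hx2 j, hcC]
      ring
  -- the density
  intro ε hε
  obtain ⟨H₀, hH₀⟩ := count_mx (M := M) (fun p => EP (n + k) p (EM n k p (E p)) (Bd p)) Γ hsmall
    (fun p _ _ a => (hΓ p a).1) (fun p _ _ a b z => hΓ2 p z a b) (B + 3 + D) hε
  refine ⟨H₀, fun H hH => le_trans ?_ (hH₀ H hH)⟩
  have hfin : {q : (Fin (n + k + (n + k)) → ℤ) × (Fin M → ℕ) | (∀ i, |q.1 i| ≤ (H : ℤ)) ∧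
      (∀ l, q.2 l + 1 ≤ H) ∧ ¬ PM (fun p => EP (n + k) p (EM n k p (E p)) (Bd p)) Γ (B + 3 + D) q.1
        (fun l => q.2 l + 1)}.Finite := by
    refine (Finset.finite_toSet (bx (n + k + (n + k)) H ×ˢ bm M H)).subset ?_
    rintro q ⟨h1, h2, -⟩
    exact Finset.mem_coe.2 (Finset.mem_product.2 ⟨mem_bx.2 h1, mem_bm.2 h2⟩)
  have hle := Set.ncard_le_ncard_of_injOn (s := {q : (Fin (n + k) → ℤ) × (Fin (n + k) → ℤ) ×
      (Fin M → ℕ) | q ∈ {q : (Fin (n + k) → ℤ) × (Fin (n + k) → ℤ) × (Fin M → ℕ) |
        (∀ l, 0 < q.2.2 l) ∧ ¬ ∀ lam : Fin (n + k) → ℂ, (∀ i, IsIntegral ℤ (lam i)) →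
        NoAtypical F D m (translate A q.1 q.2.1 q.2.2 lam V)} ∧ (∀ i, |q.1 i| ≤ (H : ℤ)) ∧
      (∀ i, |q.2.1 i| ≤ (H : ℤ)) ∧ ∀ l, q.2.2 l ≤ H})
    (fun q => (Fin.append q.1 q.2.1, fun l => q.2.2 l - 1)) ?_ ?_ hfin
  · exact_mod_cast hle
  · rintro ⟨s, δ, t⟩ ⟨⟨h1, h2⟩, h3, h4, h5⟩
    have h1' : ∀ l, 0 < t l := h1
    have e : (fun l => t l - 1 + 1) = t := funext fun l => Nat.sub_add_cancel (h1' l)
    refine ⟨fun i => ?_, fun l => ?_, fun hPM => h2 ?_⟩
    · refine Fin.addCases (fun i => ?_) (fun i => ?_) i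
      · show |Fin.append s δ (Fin.castAdd (n + k) i)| ≤ (H : ℤ)
        rw [Fin.append_left]
        exact h3 i
      · show |Fin.append s δ (Fin.natAdd (n + k) i)| ≤ (H : ℤ)
        rw [Fin.append_right]
        exact h4 i
    · show t l - 1 + 1 ≤ H
      rw [Nat.sub_add_cancel (h1' l)]
      exact h5 l
    · have h6 : PM (fun p => EP (n + k) p (EM n k p (E p)) (Bd p)) Γ (B + 3 + D)
          (Fin.append s δ) (fun l => t l - 1 + 1) := hPM
      rw [e] at h6
      exact hmain s δ t h1' h6
  · rintro ⟨s, δ, t⟩ ⟨⟨h1, -⟩, -⟩ ⟨s', δ', t'⟩ ⟨⟨h1', -⟩, -⟩ hab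
    rw [Prod.mk.injEq] at hab
    obtain ⟨ha, hb⟩ := hab
    have ha' : Fin.append s δ = Fin.append s' δ' := ha
    have hb' : (fun l => t l - 1) = fun l => t' l - 1 := hb
    have e1 : s = s' := by
      funext i
      have := congrFun ha' (Fin.castAdd (n + k) i)
      rwa [Fin.append_left, Fin.append_left] at this
    have e2 : δ = δ' := by
      funext i
      have := congrFun ha' (Fin.natAdd (n + k) i)
      rwa [Fin.append_right, Fin.append_right] at this
    have e3 : t = t' := by
      funext l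
      have h2 : t l - 1 = t' l - 1 := congrFun hb' l
      have h3 : 0 < t l := h1 l
      have h4 : 0 < t' l := h1' l
      omega
    rw [e1, e2, e3]

end Pool.Agent.H882.Old.MoebiusTranslates
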